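import Pool.Agent.Helper1.Stab.T.Op

/-! Calculus of `Biv.act` (project T, packets Q3 and Q4). -/

open Topology Filter Set

noncomputable section

namespace Pool.Agent.Helper58.Stab

open Pool.Agent.Helper1.Stab Pool.Agent.Helper63.Stab

variable {R : Biv}

theorem act_eq_pl {A : LC} (x : R.Hom A LC.point) (Z : LC) :
    R.act x Z = pl R x (W := Z) (M := A.prod Z) (N := Z) (Homeomorph.refl (A.prod Z))
      (LC.lunit Z).symm := by
  rw [pl, jh_refl_comp]
  rfl

/-- the class `act` of a product -/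
theorem act_tens {A : LC} (x : R.Hom A LC.point) (Z V : LC) :
    R.tens (R.act x Z) V = R.comp (jh R (ascH A Z V)) (R.act x (Z.prod V)) := by
  rw [act_eq_pl, act_eq_pl, tens_pl, jh_pl]
  exact pl_congr x (Homeomorph.refl _) _ _ _ _ (fun m => rfl) (fun n => rfl)

/-- left unit -/
theorem lunit_nat {K L : LC} (c : R.Hom K L) :
    R.comp (R.ltens LC.point c) (jh R (LC.lunit L)) = R.comp (jh R (LC.lunit K)) c := by
  conv_rhs => rw [eq_pl c]
  rw [ltens_eq_pl, jh_pl, pl_jh]
  exact pl_congr c (Homeomorph.refl _) _ _ _ _ (fun m => rfl) (fun n => rfl)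

/-- naturality of `act` -/
theorem act_nat {A : LC} (x : R.Hom A LC.point) {L Z : LC} (c : R.Hom L Z) :
    R.comp (R.act x L) c = R.comp (R.ltens A c) (R.act x Z) := by
  unfold Biv.act
  rw [R.assoc, ← lunit_nat, ← R.assoc, exch', R.assoc]

/-- `act` of a composition -/
theorem act_comp {A B : LC} (x : R.Hom A B) (y : R.Hom B LC.point) (Z : LC) :
    R.act (R.comp x y) Z = R.comp (R.tens x Z) (R.act y Z) := by
  unfold Biv.act
  rw [R.tens_comp, R.assoc]

theorem act_id (Z : LC) : R.act (R.J (PMap.id LC.point)) Z = jh R (LC.lunit Z) := by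
  unfold Biv.act
  rw [tens_id, R.id_comp]

/-- `act` of a product -/
theorem act_mul {A B : LC} (x : R.Hom A LC.point) (y : R.Hom B LC.point) (Z : LC) :
    R.act (R.comp (R.comp (R.tens x B) (R.ltens LC.point y))
      (jh R (LC.lunit LC.point))) Z =
      R.comp (jh R (ascH A B Z)) (R.comp (R.act x (B.prod Z)) (R.act y Z)) := by
  have h1 : R.comp (R.ltens LC.point y) (jh R (LC.lunit LC.point)) =
      R.comp (jh R (LC.lunit B)) y := lunit_nat y
  rw [R.assoc, h1, act_comp, act_comp, ← R.assoc, ← R.tens_comp]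
  have h2 : R.tens (R.comp (R.tens x B) (jh R (LC.lunit B))) Z =
      R.comp (jh R (ascH A B Z)) (R.act x (B.prod Z)) := act_tens x B Z
  rw [h2, R.assoc]

theorem comp_sum {K L M : LC} {ι : Type} (s : Finset ι) (x : R.Hom K L) (y : ι → R.Hom L M) :
    R.comp x (∑ i ∈ s, y i) = ∑ i ∈ s, R.comp x (y i) :=
  map_sum (AddMonoidHom.mk' (fun z => R.comp x z) (fun a b => R.comp_add x a b)) y s

theorem sum_comp' {K L M : LC} {ι : Type} (s : Finset ι) (x : ι → R.Hom K L) (y : R.Hom L M) :
    R.comp (∑ i ∈ s, x i) y = ∑ i ∈ s, R.comp (x i) y :=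
  map_sum (AddMonoidHom.mk' (fun z => R.comp z y) (fun a b => R.add_comp a b y)) x s

theorem tens_sum {K L : LC} {ι : Type} (s : Finset ι) (x : ι → R.Hom K L) (V : LC) :
    R.tens (∑ i ∈ s, x i) V = ∑ i ∈ s, R.tens (x i) V :=
  map_sum (AddMonoidHom.mk' (fun z => R.tens z V) (fun a b => R.tens_add a b V)) x s

end Pool.Agent.Helper58.Stab
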